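import Pool.Agent.Y58.HT.Stm

/-!
Block KOL of project HT: Kolchin's theorem for 2x2 matrices.
-/

universe u

namespace Pool.Agent.Y250.HT

open Matrix H361P Pool.Agent.Y58.HT
open scoped MatrixGroups LinearAlgebra.Projectivization

variable {K : Type u} [Field K]

theorem smul0 (g : GL (Fin 2) K) (x : Fin 2 → K) : (g • x) 0 = g 0 0 * x 0 + g 0 1 * x 1 := by
  rw [Matrix.GeneralLinearGroup.fin_two_smul]
  rfl

theorem smul1 (g : GL (Fin 2) K) (x : Fin 2 → K) : (g • x) 1 = g 1 0 * x 0 + g 1 1 * x 1 := by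
  rw [Matrix.GeneralLinearGroup.fin_two_smul]
  rfl

/-- the fixed vector of a unipotent matrix -/
theorem key (A : GL (Fin 2) K) (ht : A.val.trace = 2) (hd : A.val.det = 1) (hA : A ≠ 1) :
    ∃ e : Fin 2 → K, e ≠ 0 ∧ (∀ w : Fin 2 → K, wd (A • w) w = 0 → wd w e = 0) ∧
      ∀ B : GL (Fin 2) K, B.val.trace = 2 → (A * B).val.trace = 2 → wd (B • e) e = 0 := by
  have ht' : A 0 0 + A 1 1 = 2 := by
    rw [Matrix.trace_fin_two] at ht
    exact ht
  have hd' : A 0 0 * A 1 1 - A 0 1 * A 1 0 = 1 := by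
    rw [Matrix.det_fin_two] at hd
    exact hd
  have hd2 : A 1 1 = 2 - A 0 0 := by linear_combination ht'
  have hbc : A 0 1 * A 1 0 = -(A 0 0 - 1) ^ 2 := by
    rw [hd2] at hd'
    linear_combination -hd'
  have htr : ∀ B : GL (Fin 2) K, B.val.trace = 2 → (A * B).val.trace = 2 →
      B 1 1 = 2 - B 0 0 ∧
      A 0 0 * B 0 0 + A 0 1 * B 1 0 + (A 1 0 * B 0 1 + A 1 1 * B 1 1) = 2 := by
    intro B h1 h2
    rw [Matrix.trace_fin_two] at h1 h2
    rw [Units.val_mul, Matrix.mul_apply, Matrix.mul_apply, Fin.sum_univ_two,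
      Fin.sum_univ_two] at h2
    refine ⟨?_, h2⟩
    have h3 : B 0 0 + B 1 1 = 2 := h1
    linear_combination h3
  by_cases hb : A 0 1 = 0
  · have ha : A 0 0 = 1 := by
      rw [hb, zero_mul] at hbc
      have h1 : (A 0 0 - 1) ^ 2 = 0 := by linear_combination hbc
      exact sub_eq_zero.mp (pow_eq_zero_iff (by norm_num) |>.mp h1)
    have hd1 : A 1 1 = 1 := by
      rw [hd2, ha]
      ring
    have hc : A 1 0 ≠ 0 := by
      intro hc
      apply hA
      ext i j
      fin_cases i <;> fin_cases j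
      · simpa using ha
      · simpa using hb
      · simpa using hc
      · simpa using hd1
    refine ⟨![0, 1], ?_, ?_, ?_⟩
    · intro h
      have h1 := congrFun h 1
      simp at h1
    · intro w hw
      rw [wd, smul0, smul1, ha, hb, hd1] at hw
      have h1 : A 1 0 * (w 0) ^ 2 = 0 := by linear_combination -hw
      have h2 : w 0 = 0 := by
        rcases mul_eq_zero.mp h1 with h3 | h3
        · exact absurd h3 hc
        · exact pow_eq_zero_iff (by norm_num) |>.mp h3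
      show w 0 * (![0, 1] : Fin 2 → K) 1 - w 1 * (![0, 1] : Fin 2 → K) 0 = 0
      rw [h2]
      simp
    · intro B h1 h2
      obtain ⟨h3, h4⟩ := htr B h1 h2
      rw [ha, hb, hd1, h3] at h4
      have h5 : A 1 0 * B 0 1 = 0 := by linear_combination h4
      have h6 : B 0 1 = 0 := (mul_eq_zero.mp h5).resolve_left hc
      rw [wd, smul0, smul1, h6]
      simp
  · refine ⟨![A 0 1, 1 - A 0 0], ?_, ?_, ?_⟩
    · intro h
      have h1 := congrFun h 0
      exact hb (by simpa using h1)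
    · intro w hw
      rw [wd, smul0, smul1, hd2] at hw
      have h1 : (w 0 * (1 - A 0 0) - w 1 * A 0 1) ^ 2 = 0 := by
        linear_combination (A 0 1) * hw + (w 0) ^ 2 * hbc
      have h2 : w 0 * (1 - A 0 0) - w 1 * A 0 1 = 0 := pow_eq_zero_iff (by norm_num) |>.mp h1
      show w 0 * (![A 0 1, 1 - A 0 0] : Fin 2 → K) 1 -
        w 1 * (![A 0 1, 1 - A 0 0] : Fin 2 → K) 0 = 0
      simpa using h2
    · intro B h1 h2
      obtain ⟨h3, h4⟩ := htr B h1 h2
      rw [hd2, h3] at h4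
      rw [wd, smul0, smul1, h3]
      show (B 0 0 * A 0 1 + B 0 1 * (1 - A 0 0)) * (1 - A 0 0) -
        (B 1 0 * A 0 1 + (2 - B 0 0) * (1 - A 0 0)) * A 0 1 = 0
      linear_combination (-(A 0 1)) * h4 + (B 0 1) * hbc

theorem t_kol : S_KOL.{u} := by
  intro K _ N hN hne
  obtain ⟨A, hAN, hA1⟩ : ∃ A ∈ N, A ≠ 1 := by
    by_contra h
    push Not at h
    exact hne ((Subgroup.eq_bot_iff_forall N).mpr h)
  obtain ⟨e, he, h1, h2⟩ := key A (hN A hAN).1 (hN A hAN).2 hA1
  refine ⟨Projectivization.mk K e he, fun m hm => ?_⟩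
  have hBN : m * A * m⁻¹ ∈ N := hm A hAN
  have h3 : wd ((m * A * m⁻¹) • e) e = 0 := by
    refine h2 _ (hN _ hBN).1 (hN _ (N.mul_mem hAN hBN)).1
  have h4 : wd (m • (A • (m⁻¹ • e))) (m • (m⁻¹ • e)) = 0 := by
    rw [smul_inv_smul, smul_smul, smul_smul]
    exact h3
  have hdet : m.val.det ≠ 0 := m.det_ne_zero
  rw [wd_smul] at h4
  have h5 : wd (A • (m⁻¹ • e)) (m⁻¹ • e) = 0 := (mul_eq_zero.mp h4).resolve_left hdet
  have h6 : wd (m⁻¹ • e) e = 0 := h1 _ h5
  have h7 : wd (m • (m⁻¹ • e)) (m • e) = 0 := by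
    rw [wd_smul, h6, mul_zero]
  rw [smul_inv_smul] at h7
  have h8 : wd (m • e) e = 0 := by
    rw [wd] at h7 ⊢
    linear_combination -h7
  rw [Projectivization.smul_mk]
  exact mk_eq_of_wd _ he h8

end Pool.Agent.Y250.HT
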